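import Pool.Agent.K1H62.MC.Plan

set_option autoImplicit false

/-! The upper bound for the Euclidean capacity, extension by zero. -/

namespace Pool.Agent.K1H92.MC

open MeasureTheory Filter Topology
open scoped ENNReal ContDiff
open Pool.Agent.K1H62.MC

lemma closed_MM : IsClosed MM := isClosed_le continuous_const s_cont

lemma MM_sub : MM ⊆ {x : E | 2 < s x} := fun x hx => by
  have : (4 : ℝ) ≤ s x := hx
  show 2 < s x
  linarith

lemma int4 : Integrable (fun x : E => (1 + ‖x‖) ^ (-4 : ℝ)) := by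
  apply integrable_one_add_norm
  rw [finrank_euclideanSpace]
  norm_num

theorem up : S_UP := by
  rintro ⟨-, -, -, -, -, hfr, -, -, -, -⟩ ⟨hsm, -, -, h0, -, -⟩ ⟨⟨C, hC, hdec, hgrad, -⟩, L, hL⟩
  have hcont : ∀ i, ContinuousOn (pd i u) MM := fun i =>
    ((pd_smooth (open_s 2) hsm i).continuousOn).mono MM_sub
  have hInt : IntegrableOn (fun x => ∑ i, pd i u x ^ 2) MM := by
    have hg : IntegrableOn (fun x : E => 3 * C ^ 2 * (1 + ‖x‖) ^ (-4 : ℝ)) MM :=
      (int4.const_mul _).integrableOn
    refine Integrable.mono' hg ?_ ?_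
    · apply ContinuousOn.aestronglyMeasurable _ closed_MM.measurableSet
      exact continuousOn_finsetSum _ fun i _ => (hcont i).pow 2
    · rw [ae_restrict_iff' closed_MM.measurableSet]
      refine Eventually.of_forall fun x hx => ?_
      rw [Real.norm_eq_abs, abs_of_nonneg (Finset.sum_nonneg fun i _ => sq_nonneg _)]
      have h1 : 0 < 1 + ‖x‖ := by positivity
      have h2 : ∀ i, pd i u x ^ 2 ≤ C ^ 2 * (1 + ‖x‖) ^ (-4 : ℝ) := by
        intro i
        have h3 := hgrad x hx i
        have h4 : pd i u x ^ 2 ≤ (C / (1 + ‖x‖) ^ 2) ^ 2 := by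
          rw [← sq_abs]
          exact pow_le_pow_left₀ (abs_nonneg _) h3 2
        refine h4.trans (le_of_eq ?_)
        rw [div_pow, ← pow_mul, Real.rpow_neg h1.le, div_eq_mul_inv]
        norm_cast
      calc ∑ i, pd i u x ^ 2 ≤ ∑ _i : Fin 3, C ^ 2 * (1 + ‖x‖) ^ (-4 : ℝ) :=
            Finset.sum_le_sum fun i _ => h2 i
        _ = 3 * C ^ 2 * (1 + ‖x‖) ^ (-4 : ℝ) := by
            rw [Finset.sum_const, Finset.card_univ, Fintype.card_fin]
            simp only [nsmul_eq_mul]
            push_cast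
            ring
  refine ⟨hInt, ?_⟩
  have hTest : Test MM u := by
    refine ⟨⟨L, hL⟩, ?_, ?_⟩
    · intro x hx
      rw [hfr] at hx
      exact h0 x hx
    · rw [tendsto_iff_norm_sub_tendsto_zero]
      have h1 : Tendsto (fun x : E => C / (1 + ‖x‖)) (cocompact E ⊓ 𝓟 MM) (𝓝 0) := by
        apply Tendsto.mono_left _ inf_le_left
        apply Tendsto.div_atTop tendsto_const_nhds
        exact tendsto_atTop_add_const_left _ 1 tendsto_norm_cocompact_atTop
      refine squeeze_zero' (Eventually.of_forall fun x => norm_nonneg _) ?_ h1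
      have h2 : ∀ᶠ x in cocompact E ⊓ 𝓟 MM, x ∈ MM :=
        (eventually_principal.mpr fun x hx => hx).filter_mono inf_le_right
      filter_upwards [h2] with x hx
      rw [Real.norm_eq_abs, abs_sub_comm]
      exact hdec x hx
  have hDir : Dir eu MM u = ENNReal.ofReal E₀ := by
    unfold Dir E₀
    rw [ofReal_integral_eq_lintegral_ofReal hInt
      (Eventually.of_forall fun x => Finset.sum_nonneg fun i _ => sq_nonneg _)]
    refine lintegral_congr fun x => ?_
    rw [nsq_eu, vol_eu, mul_one]
  unfold cap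
  refine (iInf₂_le u hTest).trans (le_of_eq ?_)
  rw [hDir]

theorem ext : S_EXT := by
  rintro - w ⟨C, hC⟩ h0
  refine ⟨C, LipschitzWith.of_dist_le_mul fun x y => ?_⟩
  -- the mixed case
  have key : ∀ x y : E, 4 ≤ s x → s y < 4 → |w x| ≤ C * dist x y := by
    intro x y hx hy
    obtain ⟨z, hz, hzs⟩ : ∃ t ∈ Set.Icc (0 : ℝ) 1, s (AffineMap.lineMap x y t) = 4 := by
      have hc : ContinuousOn (fun t : ℝ => s (AffineMap.lineMap x y t)) (Set.Icc 0 1) :=
        (s_cont.comp AffineMap.lineMap_continuous).continuousOn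
      have h1 := intermediate_value_Icc' (show (0 : ℝ) ≤ 1 by norm_num) hc
      have h2 : (4 : ℝ) ∈ Set.Icc ((fun t : ℝ => s (AffineMap.lineMap x y t)) 1)
          ((fun t : ℝ => s (AffineMap.lineMap x y t)) 0) := by
        simp only [AffineMap.lineMap_apply_one, AffineMap.lineMap_apply_zero]
        exact ⟨hy.le, hx⟩
      obtain ⟨t, ht, ht'⟩ := h1 h2
      exact ⟨t, ht, ht'⟩
    have h3 := hC.dist_le_mul x hx (AffineMap.lineMap x y z) (by show 4 ≤ s _; rw [hzs])
    rw [h0 _ hzs, Real.dist_eq, sub_zero] at h3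
    refine h3.trans ?_
    apply mul_le_mul_of_nonneg_left _ C.2
    rw [dist_left_lineMap, Real.norm_eq_abs, abs_of_nonneg hz.1]
    exact mul_le_of_le_one_left dist_nonneg hz.2
  by_cases hx : 4 ≤ s x <;> by_cases hy : 4 ≤ s y
  · simp only [hx, hy, if_true]
    exact hC.dist_le_mul x hx y hy
  · simp only [hx, hy, if_true, if_false]
    rw [Real.dist_eq, sub_zero]
    exact key x y hx (not_le.mp hy)
  · simp only [hx, hy, if_true, if_false]
    rw [Real.dist_eq, zero_sub, abs_neg, dist_comm]
    exact key y x hy (not_le.mp hx)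
  · simp only [hx, hy, if_false]
    rw [dist_self]
    positivity

end Pool.Agent.K1H92.MC
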